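import Pool.Agent.U237.NF.Lite

/-!
# Project NF: the graph lemma `S_G` and the common root of the frequencies `S_R`
-/

set_option autoImplicit false

namespace Pool.Agent.U608.NF.GR

open Finset Pool.Agent.U237.NF.Lite

open Classical in
theorem card_filter_prod (P : Finset ℕ) (R : ℕ → ℕ → Prop) :
    ((((P ×ˢ P).filter (fun pq => R pq.1 pq.2)).card : ℕ) : ℝ) =
      ∑ x ∈ P, ∑ q ∈ P, (if R x q then (1 : ℝ) else 0) := by
  rw [Finset.card_filter, Nat.cast_sum, Finset.sum_product]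
  refine Finset.sum_congr rfl fun x _ => Finset.sum_congr rfl fun q _ => ?_
  split_ifs <;> simp

open Classical in
theorem t_G : S_G := by
  intro P R c hc0 hc1 hsym hn hR
  by_contra hno
  push Not at hno
  set n : ℝ := (P.card : ℝ) with hndef
  have hnpos : 0 < n := lt_of_lt_of_le (by positivity) hn
  have hc2 : 4 ≤ c ^ 2 * n := by
    have := (div_le_iff₀ (by positivity : (0 : ℝ) < c ^ 2)).1 hn
    linarith
  let i : ℕ → ℕ → ℝ := fun x q => if R x q then (1 : ℝ) else 0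
  have hi0 : ∀ x q, 0 ≤ i x q := fun x q => by simp only [i]; split_ifs <;> norm_num
  have hi1 : ∀ x q, i x q ≤ 1 := fun x q => by simp only [i]; split_ifs <;> norm_num
  have h1 : c * n ^ 2 ≤ ∑ x ∈ P, ∑ q ∈ P, i x q := by
    have := hR
    rw [card_filter_prod] at this
    exact this
  have h2 : (∑ x ∈ P, ∑ q ∈ P, i x q) ^ 2 ≤ n * ∑ x ∈ P, (∑ q ∈ P, i x q) ^ 2 :=
    sq_sum_le_card_mul_sum_sq
  have h3 : ∑ x ∈ P, (∑ q ∈ P, i x q) ^ 2 = ∑ q ∈ P, ∑ q' ∈ P, ∑ x ∈ P, i x q * i x q' := by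
    calc ∑ x ∈ P, (∑ q ∈ P, i x q) ^ 2 = ∑ x ∈ P, ∑ q ∈ P, ∑ q' ∈ P, i x q * i x q' := by
          refine Finset.sum_congr rfl fun x _ => ?_
          rw [sq, Finset.sum_mul_sum]
      _ = ∑ q ∈ P, ∑ x ∈ P, ∑ q' ∈ P, i x q * i x q' := Finset.sum_comm
      _ = _ := Finset.sum_congr rfl fun q _ => Finset.sum_comm
  have h4 : ∀ q ∈ P, ∀ q' ∈ P, ∑ x ∈ P, i x q * i x q' ≤
      (if q = q' then n else 0) + (c ^ 2 / 8 * n + 2) := by
    intro q hq q' hq'
    by_cases hqq : q = q'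
    · rw [if_pos hqq]
      have : ∑ x ∈ P, i x q * i x q' ≤ ∑ _x ∈ P, (1 : ℝ) :=
        Finset.sum_le_sum fun x _ => by nlinarith [hi0 x q, hi1 x q, hi0 x q', hi1 x q']
      rw [Finset.sum_const, nsmul_eq_mul, mul_one] at this
      have h8 : 0 ≤ c ^ 2 / 8 * n := by positivity
      linarith
    · rw [if_neg hqq]
      have hlt := hno q hq q' hq' hqq
      have hcard : (((P.filter (fun p => p ≠ q ∧ p ≠ q' ∧ R p q ∧ R p q')).card : ℕ) : ℝ) =
          ∑ x ∈ P, (if x ≠ q ∧ x ≠ q' ∧ R x q ∧ R x q' then (1 : ℝ) else 0) := by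
        rw [Finset.card_filter, Nat.cast_sum]
        refine Finset.sum_congr rfl fun x _ => ?_
        split_ifs <;> simp
      have hterm : ∀ x ∈ P, i x q * i x q' ≤
          (if x ≠ q ∧ x ≠ q' ∧ R x q ∧ R x q' then (1 : ℝ) else 0) + (if x = q then (1 : ℝ) else 0) +
            (if x = q' then (1 : ℝ) else 0) := by
        intro x _
        by_cases e1 : x = q
        · rw [if_pos e1]
          have : i x q * i x q' ≤ 1 := by nlinarith [hi0 x q, hi1 x q, hi0 x q', hi1 x q']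
          have a1 : (0 : ℝ) ≤ (if x ≠ q ∧ x ≠ q' ∧ R x q ∧ R x q' then (1 : ℝ) else 0) := by
            split_ifs <;> norm_num
          have a2 : (0 : ℝ) ≤ (if x = q' then (1 : ℝ) else 0) := by positivity
          linarith
        by_cases e2 : x = q'
        · rw [if_pos e2]
          have : i x q * i x q' ≤ 1 := by nlinarith [hi0 x q, hi1 x q, hi0 x q', hi1 x q']
          have a1 : (0 : ℝ) ≤ (if x ≠ q ∧ x ≠ q' ∧ R x q ∧ R x q' then (1 : ℝ) else 0) := by
            split_ifs <;> norm_num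
          have a2 : (0 : ℝ) ≤ (if x = q then (1 : ℝ) else 0) := by positivity
          linarith
        · rw [if_neg e1, if_neg e2]
          have a1 : (0 : ℝ) ≤ (if x ≠ q ∧ x ≠ q' ∧ R x q ∧ R x q' then (1 : ℝ) else 0) := by
            split_ifs <;> norm_num
          by_cases r1 : R x q
          · by_cases r2 : R x q'
            · rw [if_pos ⟨e1, e2, r1, r2⟩]
              simp only [i, if_pos r1, if_pos r2]
              norm_num
            · have : i x q' = 0 := if_neg r2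
              rw [this, mul_zero, add_zero, add_zero]
              exact a1
          · have : i x q = 0 := if_neg r1
            rw [this, zero_mul, add_zero, add_zero]
            exact a1
      have hs := Finset.sum_le_sum hterm
      rw [Finset.sum_add_distrib, Finset.sum_add_distrib, ← hcard, Finset.sum_ite_eq',
        Finset.sum_ite_eq', if_pos hq, if_pos hq'] at hs
      linarith
  have h5 : ∑ q ∈ P, ∑ q' ∈ P, ∑ x ∈ P, i x q * i x q' ≤
      ∑ q ∈ P, ∑ q' ∈ P, ((if q = q' then n else 0) + (c ^ 2 / 8 * n + 2)) :=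
    Finset.sum_le_sum fun q hq => Finset.sum_le_sum fun q' hq' => h4 q hq q' hq'
  have h6 : ∑ q ∈ P, ∑ q' ∈ P, ((if q = q' then n else 0) + (c ^ 2 / 8 * n + 2)) =
      n * n + n * (n * (c ^ 2 / 8 * n + 2)) := by
    have : ∀ q ∈ P, ∑ q' ∈ P, ((if q = q' then n else 0) + (c ^ 2 / 8 * n + 2)) =
        n + n * (c ^ 2 / 8 * n + 2) := by
      intro q hq
      rw [Finset.sum_add_distrib, Finset.sum_ite_eq, if_pos hq, Finset.sum_const, nsmul_eq_mul]
    rw [Finset.sum_congr rfl this, Finset.sum_const, nsmul_eq_mul]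
    ring
  have h7 : (c * n ^ 2) ^ 2 ≤ n * (n * n + n * (n * (c ^ 2 / 8 * n + 2))) := by
    calc (c * n ^ 2) ^ 2 ≤ (∑ x ∈ P, ∑ q ∈ P, i x q) ^ 2 := by gcongr
      _ ≤ n * ∑ x ∈ P, (∑ q ∈ P, i x q) ^ 2 := h2
      _ ≤ _ := by
          rw [h3, ← h6]
          exact mul_le_mul_of_nonneg_left h5 hnpos.le
  have h8 : c ^ 2 * n ≤ 3 + c ^ 2 * n / 8 := by
    have hn3 : 0 < n ^ 3 := by positivity
    have : n ^ 3 * (c ^ 2 * n) ≤ n ^ 3 * (3 + c ^ 2 * n / 8) := by nlinarith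
    exact le_of_mul_le_mul_left this hn3
  linarith

theorem norm_le_of_int {x t : ℝ} {k : ℤ} (h : x = k + t) : ‖(x : UnitAddCircle)‖ ≤ |t| := by
  rw [UnitAddCircle.norm_eq]
  calc |x - round x| ≤ |x - k| := round_le x k
    _ = |t| := by rw [h]; congr 1; ring

theorem exists_int {x e : ℝ} (h : ‖(x : UnitAddCircle)‖ ≤ e) : ∃ k : ℤ, ∃ t : ℝ, x = k + t ∧ |t| ≤ e := by
  rw [UnitAddCircle.norm_eq] at h
  exact ⟨round x, x - round x, by ring, h⟩

theorem mem_PB {y p : ℕ} (h : p ∈ PB y) : y < p ∧ p ≤ 2 * y ∧ p.Prime := by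
  unfold PB at h
  rw [Finset.mem_filter, Finset.mem_Ioc] at h
  exact ⟨h.1.1, h.1.2, h.2⟩

theorem t_R : S_R := by
  intro y W e al p0 p1 hy hp0 hp1 hne hW hp0W hp1W hcard he hrel
  obtain ⟨a0, b0, c0⟩ := mem_PB hp0
  obtain ⟨a1, b1, c1⟩ := mem_PB hp1
  have hP : ∀ p ∈ W, y < p ∧ p ≤ 2 * y ∧ p.Prime := fun p hp => mem_PB (hW hp)
  have hyR : (1 : ℝ) ≤ y := by exact_mod_cast hy
  have hp0R : (y : ℝ) < p0 := by exact_mod_cast a0
  have hp1R : (y : ℝ) < p1 := by exact_mod_cast a1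
  have hp0R' : (p0 : ℝ) ≤ 2 * y := by exact_mod_cast b0
  have hp1R' : (p1 : ℝ) ≤ 2 * y := by exact_mod_cast b1
  have h1 : ∀ p : ℕ, ∃ k : ℤ, ∃ t : ℝ, p ∈ W → ((p0 : ℝ) * al p - (p : ℝ) * al p0 = k + t ∧ |t| ≤ e) := by
    intro p
    by_cases hp : p ∈ W
    · obtain ⟨k, t, h⟩ := exists_int (hrel p hp).1
      exact ⟨k, t, fun _ => h⟩
    · exact ⟨0, 0, fun h => absurd h hp⟩
  have h2 : ∀ p : ℕ, ∃ k : ℤ, ∃ t : ℝ, p ∈ W → ((p1 : ℝ) * al p - (p : ℝ) * al p1 = k + t ∧ |t| ≤ e) := by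
    intro p
    by_cases hp : p ∈ W
    · obtain ⟨k, t, h⟩ := exists_int (hrel p hp).2
      exact ⟨k, t, fun _ => h⟩
    · exact ⟨0, 0, fun h => absurd h hp⟩
  choose cc tt hct using h1
  choose dd ss hds using h2
  -- the key relation
  have key : ∀ p ∈ W, ∀ q ∈ W, ((q : ℤ) * cc p - p * cc q) * p1 = ((q : ℤ) * dd p - p * dd q) * p0 := by
    intro p hp q hq
    obtain ⟨u1, u2⟩ := hct p hp
    obtain ⟨u3, u4⟩ := hct q hq
    obtain ⟨v1, v2⟩ := hds p hp
    obtain ⟨v3, v4⟩ := hds q hq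
    have hpR : (p : ℝ) ≤ 2 * y := by exact_mod_cast (hP p hp).2.1
    have hqR : (q : ℝ) ≤ 2 * y := by exact_mod_cast (hP q hq).2.1
    have hpp : (0 : ℝ) ≤ p := Nat.cast_nonneg p
    have hqq : (0 : ℝ) ≤ q := Nat.cast_nonneg q
    have e0 : 0 ≤ e := le_trans (abs_nonneg _) u2
    have heq : (((((q : ℤ) * cc p - p * cc q) * p1 - ((q : ℤ) * dd p - p * dd q) * p0 : ℤ)) : ℝ) =
        (q : ℝ) * (ss p * p0 - tt p * p1) - p * (ss q * p0 - tt q * p1) := by
      have k1 : (cc p : ℝ) = (p0 : ℝ) * al p - (p : ℝ) * al p0 - tt p := by linarith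
      have k2 : (cc q : ℝ) = (p0 : ℝ) * al q - (q : ℝ) * al p0 - tt q := by linarith
      have k3 : (dd p : ℝ) = (p1 : ℝ) * al p - (p : ℝ) * al p1 - ss p := by linarith
      have k4 : (dd q : ℝ) = (p1 : ℝ) * al q - (q : ℝ) * al p1 - ss q := by linarith
      push_cast
      rw [k1, k2, k3, k4]
      ring
    have hb : |(((((q : ℤ) * cc p - p * cc q) * p1 - ((q : ℤ) * dd p - p * dd q) * p0 : ℤ)) : ℝ)| < 1 := by
      rw [heq]
      have w1 : |ss p * p0 - tt p * p1| ≤ e * (4 * y) := by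
        calc |ss p * p0 - tt p * p1| ≤ |ss p * p0| + |tt p * p1| := abs_sub _ _
          _ = |ss p| * p0 + |tt p| * p1 := by
              rw [abs_mul, abs_mul, abs_of_pos (by linarith : (0 : ℝ) < p0),
                abs_of_pos (by linarith : (0 : ℝ) < p1)]
          _ ≤ e * (2 * y) + e * (2 * y) := by gcongr
          _ = e * (4 * y) := by ring
      have w2 : |ss q * p0 - tt q * p1| ≤ e * (4 * y) := by
        calc |ss q * p0 - tt q * p1| ≤ |ss q * p0| + |tt q * p1| := abs_sub _ _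
          _ = |ss q| * p0 + |tt q| * p1 := by
              rw [abs_mul, abs_mul, abs_of_pos (by linarith : (0 : ℝ) < p0),
                abs_of_pos (by linarith : (0 : ℝ) < p1)]
          _ ≤ e * (2 * y) + e * (2 * y) := by gcongr
          _ = e * (4 * y) := by ring
      calc |(q : ℝ) * (ss p * p0 - tt p * p1) - p * (ss q * p0 - tt q * p1)|
          ≤ |(q : ℝ) * (ss p * p0 - tt p * p1)| + |p * (ss q * p0 - tt q * p1)| := abs_sub _ _
        _ = q * |ss p * p0 - tt p * p1| + p * |ss q * p0 - tt q * p1| := by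
            rw [abs_mul, abs_mul, abs_of_nonneg hpp, abs_of_nonneg hqq]
        _ ≤ 2 * y * (e * (4 * y)) + 2 * y * (e * (4 * y)) := by gcongr
        _ = 16 * (y : ℝ) ^ 2 * e := by ring
        _ < 1 := he
    have hz : |((q : ℤ) * cc p - p * cc q) * p1 - ((q : ℤ) * dd p - p * dd q) * p0| < 1 := by
      exact_mod_cast hb
    have := Int.abs_lt_one_iff.1 hz
    linarith
  have hdvd : ∀ p ∈ W, ∀ q ∈ W, (p0 : ℤ) ∣ (q : ℤ) * cc p - p * cc q := by
    intro p hp q hq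
    have hd : (p0 : ℤ) ∣ ((q : ℤ) * cc p - p * cc q) * p1 := ⟨(q : ℤ) * dd p - p * dd q, by
      rw [key p hp q hq]; ring⟩
    have hcop : IsCoprime (p0 : ℤ) (p1 : ℤ) := by
      rw [Nat.isCoprime_iff_coprime]
      exact (Nat.coprime_primes c0 c1).2 hne
    exact hcop.dvd_of_dvd_mul_right hd
  obtain ⟨w, hw⟩ : W.Nonempty := Finset.card_pos.1 (by omega)
  have hwcop : IsCoprime (w : ℤ) (p0 : ℤ) := by
    rw [Nat.isCoprime_iff_coprime]
    exact (Nat.coprime_primes (hP w hw).2.2 c0).2 (fun h => hp0W (h ▸ hw))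
  obtain ⟨u, v, huv⟩ := hwcop
  -- u * w + v * p0 = 1
  refine ⟨(al p0 + ((u * cc w : ℤ) : ℝ)) / p0, fun p hp => ?_⟩
  obtain ⟨u1, u2⟩ := hct p hp
  have hd2 : (p0 : ℤ) ∣ p * (u * cc w) - cc p := by
    have hh := hdvd p hp w hw
    -- p0 ∣ w * cc p - p * cc w
    obtain ⟨r, hr⟩ := hh
    refine ⟨-u * r - v * cc p, ?_⟩
    linear_combination (cc p) * huv - u * hr
  obtain ⟨r, hr⟩ := hd2
  have hp0pos : (0 : ℝ) < p0 := by linarith
  have hrR : (p : ℝ) * ((u * cc w : ℤ) : ℝ) - cc p = p0 * r := by exact_mod_cast hr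
  have hfin : (p : ℝ) * ((al p0 + ((u * cc w : ℤ) : ℝ)) / p0) - al p = (r : ℤ) + (-(tt p) / p0) := by
    field_simp
    linarith
  refine le_trans (norm_le_of_int hfin) ?_
  rw [abs_div, abs_neg, abs_of_pos hp0pos]
  have e0 : 0 ≤ e := le_trans (abs_nonneg _) u2
  have hy0 : (0 : ℝ) < y := by linarith
  gcongr

end Pool.Agent.U608.NF.GR
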